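import Pool.Agent.Run7.h721.KL3.Iface

/-!
# Project KL3 (helper721), piece CHAIN: a chain of compositions with different inner blocks
-/

set_option autoImplicit false
set_option linter.all false
set_option maxHeartbeats 1000000

namespace Pool.Agent.Run7.h216.KL3

open Finset
open Pool.Agent.N35.HL
open Pool.Agent.Run7.h721.KL3

/-- one step -/
theorem chain_step (hC : S_COMP) {i ρ B tt rr ww bb St Sr Sw Sb : ℕ} {β π : ℝ} {D N E P Q T : ℕ}
    (h : HasD D N E P Q T (3 ^ i) (2 ^ ρ)) (hQ1 : 1 ≤ Q) (hT1 : 1 ≤ T)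
    (hN : N ≤ 2 ^ (1 + St + i * (18 + 2 * B))) (hP : P ≤ 2 ^ Sb)
    (hQ : Q * D ^ 2 ≤ 2 ^ (2 + Sw + i * (95 + 5 * B)))
    (hT : T ≤ 2 ^ (1 + Sr + i * (33 + 2 * B))) (hπ : 0 ≤ π)
    (hr : 2500 / 10506 * π * N * 5253 ≤ 2500 * (E : ℝ))
    (hLv : Lv tt rr ww bb β) (hβ : 0 ≤ β) (hB : Sb + bb ≤ B)
    (hcond : Sr + rr + ww + 2 * rr + (i + 1) * (33 + 2 * B) + (40 + 2 * B) ≤ ρ) :
    ∃ D' N' E' P' Q' T', HasD D' N' E' P' Q' T' (3 ^ (i + 1)) (2 ^ ρ) ∧ 1 ≤ Q' ∧ 1 ≤ T' ∧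
      N' ≤ 2 ^ (1 + (St + (tt + rr)) + (i + 1) * (18 + 2 * B)) ∧ P' ≤ 2 ^ (Sb + bb) ∧
      Q' * D' ^ 2 ≤ 2 ^ (2 + (Sw + (ww + 5 * rr)) + (i + 1) * (95 + 5 * B)) ∧
      T' ≤ 2 ^ (1 + (Sr + rr) + (i + 1) * (33 + 2 * B)) ∧
      2500 / 10506 * (π * β) * N' * 5253 ≤ 2500 * (E' : ℝ) := by
  obtain ⟨g, E₂, P₂, Rz, Δ, U, M, hI, hg, hR, hUM, hP₂, hrI⟩ := hLv
  have hP1 : 1 ≤ P := h.1
  have hD1 : 1 ≤ D := h.2.2.1
  have hP₂1 : 1 ≤ P₂ := hI.1
  have hRz := hI.Rz_pos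
  have hΔ := hI.Δ_pos
  have hΔR := hI.Δ_le
  have hU := hI.U_pos
  have hM := hI.M_pos
  have hPB : P ≤ 2 ^ B := hP.trans (Nat.pow_le_pow_right (by norm_num) (by omega))
  have hP'b : 50 * P * P₂ ≤ 2 ^ (Sb + bb) := by
    calc 50 * P * P₂ = P * (50 * P₂) := by ring
      _ ≤ 2 ^ Sb * 2 ^ bb := Nat.mul_le_mul hP hP₂
      _ = 2 ^ (Sb + bb) := (pow_add _ _ _).symm
  have hP'B : 50 * P * P₂ ≤ 2 ^ B := hP'b.trans (Nat.pow_le_pow_right (by norm_num) hB)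
  have hT' : T * (2048000 * Rz * (50 * P) ^ 2) ≤ 2 ^ (1 + (Sr + rr) + (i + 1) * (33 + 2 * B)) := by
    calc T * (2048000 * Rz * (50 * P) ^ 2) = T * ((2048000 * 50 ^ 2) * Rz * P ^ 2) := by ring
      _ ≤ 2 ^ (1 + Sr + i * (33 + 2 * B)) * (2 ^ 33 * 2 ^ rr * (2 ^ B) ^ 2) := by
          apply Nat.mul_le_mul hT
          apply Nat.mul_le_mul _ (Nat.pow_le_pow_left hPB 2)
          exact Nat.mul_le_mul (by norm_num) hR
      _ = 2 ^ (1 + (Sr + rr) + (i + 1) * (33 + 2 * B)) := by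
          rw [← pow_mul, ← pow_add, ← pow_add, ← pow_add]
          congr 1; ring
  have hc : T * (2048000 * Rz * (50 * P) ^ 2) *
      (2 ^ 27 * (M * U * Rz ^ 2 * ((50 * P) * (50 * (50 * P * P₂))))) ≤ 2 ^ ρ := by
    calc T * (2048000 * Rz * (50 * P) ^ 2) *
          (2 ^ 27 * (M * U * Rz ^ 2 * ((50 * P) * (50 * (50 * P * P₂)))))
        ≤ 2 ^ (1 + (Sr + rr) + (i + 1) * (33 + 2 * B)) *
          (2 ^ 27 * (2 ^ ww * (2 ^ rr) ^ 2 * ((2 ^ 6 * 2 ^ B) * (2 ^ 6 * 2 ^ B)))) := by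
          apply Nat.mul_le_mul hT'
          apply Nat.mul_le_mul_left
          apply Nat.mul_le_mul
          · apply Nat.mul_le_mul _ (Nat.pow_le_pow_left hR 2)
            rw [mul_comm]; exact hUM
          · apply Nat.mul_le_mul
            · exact Nat.mul_le_mul (by norm_num) hPB
            · exact Nat.mul_le_mul (by norm_num) hP'B
      _ = 2 ^ (Sr + rr + ww + 2 * rr + (i + 1) * (33 + 2 * B) + (40 + 2 * B)) := by
          rw [← pow_mul, ← pow_add, ← pow_add, ← pow_add, ← pow_add, ← pow_add]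
          congr 1; ring
      _ ≤ 2 ^ ρ := Nat.pow_le_pow_right (by norm_num) hcond
  have h8 := hC h hI hQ1 hT1 hc
  have e4 : 3 * 3 ^ i = 3 ^ (i + 1) := by ring
  rw [e4] at h8
  refine ⟨_, _, _, _, _, _, h8, ?_, ?_, ?_, hP'b, ?_, hT', ?_⟩
  · refine Nat.mul_pos hQ1 ?_
    have hPp : 0 < P := hP1
    have hPp' : 0 < 50 * P * P₂ := Nat.mul_pos (Nat.mul_pos (by norm_num) hPp) hP₂1
    have f1 : 0 < 51200 * D * P := Nat.mul_pos (Nat.mul_pos (by norm_num) hD1) hPp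
    have f2 : 0 < 2 ^ 13 * (50 * P) := Nat.mul_pos (by norm_num) (Nat.mul_pos (by norm_num) hPp)
    have f3 : 0 < 2 ^ 18 * U * Rz * (50 * (50 * P * P₂)) :=
      Nat.mul_pos (Nat.mul_pos (Nat.mul_pos (by norm_num) hU) hRz) (Nat.mul_pos (by norm_num) hPp')
    have f4 : 0 < 16 * M * Rz := Nat.mul_pos (Nat.mul_pos (by norm_num) hM) hRz
    have f5 : 0 < 2 * (51200 * D * P) * (500 * Rz * (50 * P)) :=
      Nat.mul_pos (Nat.mul_pos (by norm_num) f1) (Nat.mul_pos (Nat.mul_pos (by norm_num) hRz)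
        (Nat.mul_pos (by norm_num) hPp))
    exact Nat.mul_pos (Nat.mul_pos (Nat.mul_pos (Nat.mul_pos f1 f2) f3) f4) f5
  · exact Nat.mul_pos hT1 (Nat.mul_pos (Nat.mul_pos (by norm_num) hRz)
      (pow_pos (Nat.mul_pos (by norm_num) hP1) 2))
  · calc N * (g * Rz * 260100) * P ^ 2
        ≤ 2 ^ (1 + St + i * (18 + 2 * B)) * (2 ^ tt * 2 ^ rr * 2 ^ 18) * (2 ^ B) ^ 2 := by
          apply Nat.mul_le_mul _ (Nat.pow_le_pow_left hPB 2)
          apply Nat.mul_le_mul hN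
          exact Nat.mul_le_mul (Nat.mul_le_mul hg hR) (by norm_num)
      _ = 2 ^ (1 + (St + (tt + rr)) + (i + 1) * (18 + 2 * B)) := by
          rw [← pow_mul, ← pow_add, ← pow_add, ← pow_add, ← pow_add]
          congr 1; ring
  · calc Q * (51200 * D * P * (2 ^ 13 * (50 * P)) * (2 ^ 18 * U * Rz * (50 * (50 * P * P₂))) *
          (16 * M * Rz) * (2 * (51200 * D * P) * (500 * Rz * (50 * P)))) * Δ ^ 2
        = (Q * D ^ 2) * ((51200 * 2 ^ 13 * 50 * 2 ^ 18 * 50 * 16 * 2 * 51200 * 500 * 50) *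
            (U * M) * Rz ^ 3 * P ^ 4 * (50 * P * P₂)) * Δ ^ 2 := by ring
      _ ≤ 2 ^ (2 + Sw + i * (95 + 5 * B)) * (2 ^ 95 * 2 ^ ww * (2 ^ rr) ^ 3 * (2 ^ B) ^ 4 * 2 ^ B) *
            (2 ^ rr) ^ 2 := by
          apply Nat.mul_le_mul
          · apply Nat.mul_le_mul hQ
            apply Nat.mul_le_mul _ hP'B
            apply Nat.mul_le_mul _ (Nat.pow_le_pow_left hPB 4)
            apply Nat.mul_le_mul _ (Nat.pow_le_pow_left hR 3)
            exact Nat.mul_le_mul (by norm_num) hUM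
          · exact Nat.pow_le_pow_left (hΔR.trans hR) 2
      _ = 2 ^ (2 + (Sw + (ww + 5 * rr)) + (i + 1) * (95 + 5 * B)) := by
          rw [← pow_mul, ← pow_mul, ← pow_mul, ← pow_add, ← pow_add, ← pow_add, ← pow_add,
            ← pow_add, ← pow_add]
          congr 1; ring
  · have a1 : (2500 / 10506 * π * N * 5253) * (β * g * 5253) ≤ (2500 * E) * (2500 * E₂) :=
      mul_le_mul hr hrI (by positivity) (by positivity)
    have a2 : (0:ℝ) ≤ Rz * (P : ℝ) ^ 2 * 50 := by positivity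
    have a3 := mul_le_mul_of_nonneg_right a1 a2
    push_cast
    have a4 : 0 ≤ π * N * (β * g) * (Rz * (P : ℝ) ^ 2) := by positivity
    have e5 : 2500 / 10506 * (π * β) * (N * (g * Rz * 260100) * (P : ℝ) ^ 2) * 5253 =
      (2500 / 10506 * 260100 * 5253) * (π * N * (β * g) * (Rz * (P : ℝ) ^ 2)) := by ring
    have e6 : (2500 / 10506 * π * N * 5253) * (β * g * 5253) * (Rz * (P : ℝ) ^ 2 * 50) =
      (2500 / 10506 * 5253 * 5253 * 50) * (π * N * (β * g) * (Rz * (P : ℝ) ^ 2)) := by ring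
    have e7 : (2500 * (E:ℝ)) * (2500 * E₂) * (Rz * (P : ℝ) ^ 2 * 50) =
      2500 * (E * (125000 * E₂ * Rz * (P : ℝ) ^ 2)) := by ring
    rw [e6, e7] at a3
    rw [e5]
    refine le_trans ?_ a3
    apply mul_le_mul_of_nonneg_right _ a4
    norm_num

theorem t_CHAIN (hS : S_START) (hC : S_COMP) (hU : S_UP) : S_CHAIN := by
  intro q t r w b β B ρ hLv hβ hB hρ hcond
  have key : ∀ i, i ≤ q → ∃ D N E P Q T, HasD D N E P Q T (3 ^ i) (2 ^ ρ) ∧ 1 ≤ Q ∧ 1 ≤ T ∧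
      N ≤ 2 ^ (1 + ∑ j ∈ range i, (t j + r j) + i * (18 + 2 * B)) ∧
      P ≤ 2 ^ (∑ j ∈ range i, b j) ∧
      Q * D ^ 2 ≤ 2 ^ (2 + ∑ j ∈ range i, (w j + 5 * r j) + i * (95 + 5 * B)) ∧
      T ≤ 2 ^ (1 + ∑ j ∈ range i, r j + i * (33 + 2 * B)) ∧
      2500 / 10506 * (∏ j ∈ range i, β j) * N * 5253 ≤ 2500 * (E:ℝ) := by
    intro i
    induction i with
    | zero =>
      intro _
      obtain ⟨x, rfl⟩ : ∃ x, ρ = x + 1 := ⟨ρ - 1, by omega⟩
      refine ⟨1, 2, 1, 1, 4, 2, hS x, by norm_num, by norm_num, ?_, ?_, ?_, ?_, ?_⟩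
      · simp
      · simp
      · simp
      · simp
      · norm_num
    | succ i ih =>
      intro hi
      obtain ⟨D, N, E, P, Q, T, h1, h2, h3, h4, h5, h6, h7, h8⟩ := ih (by omega)
      have hb : ∑ j ∈ range i, b j + b i ≤ B := by
        rw [← Finset.sum_range_succ]
        refine le_trans ?_ hB
        exact Finset.sum_le_sum_of_subset (Finset.range_subset_range.2 hi)
      have hc := hcond i (by omega)
      rw [Finset.sum_range_succ] at hc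
      have hπ : 0 ≤ ∏ j ∈ range i, β j := by
        refine Finset.prod_nonneg fun j hj => hβ j ?_
        have := Finset.mem_range.1 hj
        omega
      have := chain_step hC h1 h2 h3 h4 h5 h6 h7 hπ h8 (hLv i (by omega)) (hβ i (by omega)) hb hc
      rw [Finset.sum_range_succ, Finset.sum_range_succ, Finset.sum_range_succ,
        Finset.sum_range_succ, Finset.prod_range_succ]
      exact this
  obtain ⟨D, N, E, P, Q, T, h1, h2, h3, h4, h5, h6, h7, h8⟩ := key q le_rfl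
  obtain ⟨Δ', E', h9, h10⟩ := hU h1 h2 (Nat.one_le_pow _ _ (by norm_num))
  have hD1 : 1 ≤ D := h1.2.2.1
  have hPB : P ≤ 2 ^ B := h5.trans (Nat.pow_le_pow_right (by norm_num) hB)
  have h3i : 3 ^ q ≤ 2 ^ (2 * q) := by
    rw [pow_mul]; exact Nat.pow_le_pow_left (by norm_num) q
  refine ⟨N, E', P, _, Δ', _, _, h9, h4, ?_, ?_, ?_, ?_⟩
  · calc 2 * 3 ^ q * 2 ^ ρ ≤ 2 * 2 ^ (2 * q) * 2 ^ ρ :=
          Nat.mul_le_mul_right _ (Nat.mul_le_mul_left _ h3i)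
      _ = 2 ^ (ρ + 1 + 2 * q) := by
          rw [← pow_succ', ← pow_add]; congr 1; ring
  · have hQ : Q ≤ 2 ^ (2 + ∑ j ∈ range q, (w j + 5 * r j) + q * (95 + 5 * B)) := by
      refine le_trans ?_ h6
      exact Nat.le_mul_of_pos_right _ (pow_pos hD1 2)
    calc 4 * 2 ^ ρ * (3 ^ q) ^ 2 * (12 * Q)
        ≤ 2 ^ 2 * 2 ^ ρ * (2 ^ (2 * q)) ^ 2 *
          (2 ^ 4 * 2 ^ (2 + ∑ j ∈ range q, (w j + 5 * r j) + q * (95 + 5 * B))) := by
          apply Nat.mul_le_mul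
          · apply Nat.mul_le_mul
            · exact Nat.mul_le_mul (by norm_num) le_rfl
            · exact Nat.pow_le_pow_left h3i 2
          · exact Nat.mul_le_mul (by norm_num) hQ
      _ = 2 ^ (ρ + 8 + ∑ j ∈ range q, (w j + 5 * r j) + q * (99 + 5 * B)) := by
          rw [← pow_mul, ← pow_add, ← pow_add, ← pow_add, ← pow_add]
          congr 1; ring
      _ ≤ 2 ^ (ρ + 8 + ∑ j ∈ range q, (w j + 5 * r j) + q * (100 + 6 * B)) := by
          apply Nat.pow_le_pow_right (by norm_num)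
          apply Nat.add_le_add_left
          exact Nat.mul_le_mul_left _ (by omega)
  · calc 50 * P ≤ 2 ^ 6 * 2 ^ B := Nat.mul_le_mul (by norm_num) hPB
      _ = 2 ^ (B + 6) := by rw [← pow_add]; congr 1; ring
  · have h11 : Nat.log 2 (12 * 2 ^ ρ) + 1 ≤ ρ + 4 := by
      have h12 : Nat.log 2 (12 * 2 ^ ρ) < ρ + 4 := by
        apply Nat.log_lt_of_lt_pow
        · positivity
        · rw [pow_add]
          have : 0 < 2 ^ ρ := by positivity
          omega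
      omega
    have h12 : E ≤ E' * (ρ + 4) := h10.trans (Nat.mul_le_mul_left _ h11)
    have h13 : (E:ℝ) ≤ E' * (ρ + 4) := by exact_mod_cast h12
    have hpos : (0:ℝ) < (ρ:ℝ) + 4 := by positivity
    rw [div_mul_eq_mul_div, div_mul_eq_mul_div, div_le_iff₀ hpos]
    linarith

end Pool.Agent.Run7.h216.KL3
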