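import Pool.Agent.Run7.h721.KL3.Iface
import Pool.Agent.N35.HL.Fin

/-!
# Project KL3 (helper721), piece FIN: the final estimate
-/

set_option autoImplicit false
set_option linter.all false
set_option maxHeartbeats 1000000

namespace Pool.Agent.Run7.h216.KL3

open Finset Filter Topology
open Pool.Agent.N35.HL
open Pool.Agent.Run7.h721.KL3

lemma log_bounds3 {m l : ℕ} {x : ℝ} (h1 : 2 ^ l ≤ m) (h2 : m < 2 ^ (l + 1)) (hl : 10 ≤ l)
    (hx1 : (m:ℝ) ≤ x) (hx2 : x ≤ 8 * m) :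
    Real.log x / (Real.log (Real.log x)) ^ 3 ≤ 8 * (l / (Real.log l) ^ 3) := by
  have hl0 : (10:ℝ) ≤ l := by exact_mod_cast hl
  have e1 : (2:ℝ) ^ l ≤ m := by exact_mod_cast h1
  have e2 : (m:ℝ) ≤ 2 ^ (l + 1) := by exact_mod_cast h2.le
  have hp : (0:ℝ) < 2 ^ l := by positivity
  have hx : 0 < x := by linarith
  have l2a := Real.log_two_gt_d9
  have l2b := Real.log_two_lt_d9
  have h3 : Real.log x ≤ l := by
    have h4 : x ≤ 2 ^ (l + 4) := by
      have : (2:ℝ) ^ (l + 4) = 8 * 2 ^ (l + 1) := by ring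
      linarith
    have h5 := Real.log_le_log hx h4
    rw [Real.log_pow] at h5
    push_cast at h5
    nlinarith
  have h4 : 0.69 * (l:ℝ) ≤ Real.log x := by
    have h5 := Real.log_le_log hp (e1.trans hx1)
    rw [Real.log_pow] at h5
    nlinarith
  have h5 : √(l:ℝ) ≤ Real.log x := by
    refine le_trans ?_ h4
    rw [Real.sqrt_le_left (by positivity)]
    nlinarith
  have h6 : Real.log l / 2 ≤ Real.log (Real.log x) := by
    rw [← Real.log_sqrt (by positivity)]
    exact Real.log_le_log (Real.sqrt_pos.mpr (by linarith)) h5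
  have h7 : 0 < Real.log l := Real.log_pos (by linarith)
  have h8 : 0 < (Real.log l / 2) ^ 3 := by positivity
  calc Real.log x / (Real.log (Real.log x)) ^ 3 ≤ l / (Real.log l / 2) ^ 3 :=
        div_le_div₀ (by positivity) h3 h8 (pow_le_pow_left₀ (by positivity) h6 3)
    _ = 8 * (l / (Real.log l) ^ 3) := by
        field_simp
        ring

/-- `l / (log l) ^ 3` tends to infinity -/
lemma big3 (c : ℝ) : ∀ᶠ l : ℕ in atTop, c ≤ l / (Real.log l) ^ 3 := by
  have h1 := (Real.isLittleO_pow_log_id_atTop (n := 3)).bound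
    (c := 1 / (|c| + 1)) (by positivity)
  have h2 := tendsto_natCast_atTop_atTop (R := ℝ) |>.eventually h1
  filter_upwards [h2, eventually_ge_atTop 2] with l hl hl2
  have hl0 : (2:ℝ) ≤ l := by exact_mod_cast hl2
  have h7 : 0 < Real.log l := Real.log_pos (by linarith)
  simp only [id, Real.norm_eq_abs] at hl
  rw [abs_of_nonneg (by positivity), abs_of_nonneg (by positivity : (0:ℝ) ≤ l)] at hl
  rw [le_div_iff₀ (by positivity)]
  have h8 : 0 < |c| + 1 := by positivity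
  have h9 : (|c| + 1) * Real.log l ^ 3 ≤ l := by
    calc (|c| + 1) * Real.log l ^ 3 ≤ (|c| + 1) * (1 / (|c| + 1) * l) :=
          mul_le_mul_of_nonneg_left hl h8.le
      _ = l := by field_simp
  have h10 : c * Real.log l ^ 3 ≤ (|c| + 1) * Real.log l ^ 3 :=
    mul_le_mul_of_nonneg_right (by linarith [le_abs_self c]) (by positivity)
  linarith

/-- the choice of the level -/
lemma select3 {Dp : ℕ → ℕ} {C : ℕ} {ν : ℝ} (hν : 0 < ν) (hC : 1 ≤ C) (hD1 : ∀ m, 1 ≤ Dp m)
    (hD : ∀ k, ∃ K, ∀ m, k * Dp m ≤ m + K) :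
    ∀ᶠ l : ℕ in atTop, ∃ s : ℕ,
      20 + 2 ^ s * (C * (s + 1) ^ 2 * Dp s) + 2 ^ s * (C * (s + 1) ^ 2) + 2 ^ s * C ≤ l ∧
      9 * ((l:ℝ) / (Real.log l) ^ 3) ≤ ν * 2 ^ s := by
  obtain ⟨k, hk⟩ := exists_nat_ge (9 * (552 * (C:ℝ)) / ν)
  obtain ⟨K, hK⟩ := hD k
  set G : ℕ → ℕ := fun s =>
    20 + 2 ^ s * (C * (s + 1) ^ 2 * Dp s) + 2 ^ s * (C * (s + 1) ^ 2) + 2 ^ s * C with hG
  have hlog : Tendsto (fun l : ℕ => Real.log (l:ℝ)) atTop atTop :=
    Real.tendsto_log_atTop.comp tendsto_natCast_atTop_atTop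
  filter_upwards [eventually_ge_atTop (G 0), hlog.eventually_ge_atTop (K + 4 : ℝ),
    eventually_ge_atTop 2] with l hl0 hl1 hl2
  set s := Nat.findGreatest (fun s => G s ≤ l) l with hs
  have hGs : G s ≤ l := Nat.findGreatest_spec (P := fun s => G s ≤ l) (Nat.zero_le l) hl0
  have h2s : 2 ^ s ≤ l := by
    have : 2 ^ s ≤ 2 ^ s * C := Nat.le_mul_of_pos_right _ (by omega)
    have h3 : 2 ^ s * C ≤ G s := by
      rw [hG]
      exact Nat.le_add_left _ _
    omega
  have hsl : s < l := lt_of_lt_of_le Nat.lt_two_pow_self h2s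
  have hGs1 : l < G (s + 1) := by
    by_contra hcon
    rw [not_lt] at hcon
    have := Nat.le_findGreatest (P := fun s => G s ≤ l) (show s + 1 ≤ l by omega) hcon
    omega
  refine ⟨s, hGs, ?_⟩
  have hl0' : (2:ℝ) ≤ l := by exact_mod_cast hl2
  set Lg : ℝ := Real.log l with hLg
  have hK0 : (0:ℝ) ≤ K := Nat.cast_nonneg _
  have hLg4 : 4 ≤ Lg := by linarith
  have hs_log : (s:ℝ) ≤ 1.5 * Lg := by
    have h3 : (2:ℝ) ^ s ≤ l := by exact_mod_cast h2s
    have h4 := Real.log_le_log (by positivity) h3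
    rw [Real.log_pow] at h4
    have l2a := Real.log_two_gt_d9
    have hs0 : (0:ℝ) ≤ s := Nat.cast_nonneg _
    nlinarith
  -- the upper bound for l
  have hup : l ≤ 46 * C * 2 ^ s * (s + 2) ^ 2 * Dp (s + 1) := by
    have h3 : G (s + 1) ≤ 46 * C * 2 ^ s * (s + 2) ^ 2 * Dp (s + 1) := by
      set A := 2 ^ (s + 1) * (C * (s + 2) ^ 2) with hA
      have hA1 : 1 ≤ A := Nat.mul_pos (by positivity) (Nat.mul_pos (by omega) (by positivity))
      have hd := hD1 (s + 1)
      have h4 : 2 ^ (s + 1) * C ≤ A := by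
        rw [hA]
        apply Nat.mul_le_mul_left
        exact Nat.le_mul_of_pos_right _ (by positivity)
      have h5 : G (s + 1) = 20 + A * Dp (s + 1) + A + 2 ^ (s + 1) * C := by
        rw [hG, hA]
        ring
      have h6 : A ≤ A * Dp (s + 1) := Nat.le_mul_of_pos_right _ hd
      have h7 : 46 * C * 2 ^ s * (s + 2) ^ 2 * Dp (s + 1) = 23 * (A * Dp (s + 1)) := by
        rw [hA]
        ring
      rw [h5, h7]
      omega
    omega
  have hkD : (k:ℝ) * Dp (s + 1) ≤ 3 * Lg := by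
    have h3 : ((k * Dp (s + 1) : ℕ) : ℝ) ≤ ((s + 1 + K : ℕ) : ℝ) := by exact_mod_cast hK (s + 1)
    push_cast at h3
    linarith
  have hs2 : (s:ℝ) + 2 ≤ 2 * Lg := by linarith
  have hLg0 : 0 < Lg := by linarith
  have hmain : (k:ℝ) * l ≤ 552 * C * 2 ^ s * Lg ^ 3 := by
    have h3 : (l:ℝ) ≤ 46 * C * 2 ^ s * (s + 2) ^ 2 * Dp (s + 1) := by exact_mod_cast hup
    calc (k:ℝ) * l ≤ k * (46 * C * 2 ^ s * (s + 2) ^ 2 * Dp (s + 1)) :=
          mul_le_mul_of_nonneg_left h3 (Nat.cast_nonneg _)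
      _ = 46 * C * 2 ^ s * ((s:ℝ) + 2) ^ 2 * (k * Dp (s + 1)) := by ring
      _ ≤ 46 * C * 2 ^ s * (2 * Lg) ^ 2 * (3 * Lg) := by
          apply mul_le_mul _ hkD (by positivity) (by positivity)
          apply mul_le_mul_of_nonneg_left _ (by positivity)
          exact pow_le_pow_left₀ (by positivity) hs2 2
      _ = 552 * C * 2 ^ s * Lg ^ 3 := by ring
  rw [← mul_div_assoc, div_le_iff₀ (by positivity)]
  rw [div_le_iff₀ hν] at hk
  have hC0 : (0:ℝ) < C := by exact_mod_cast hC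
  have h3 : 9 * (l:ℝ) * (552 * C) ≤ (ν * 2 ^ s * Lg ^ 3) * (552 * C) := by
    calc 9 * (l:ℝ) * (552 * C) = (9 * (552 * C)) * l := by ring
      _ ≤ (k * ν) * l := mul_le_mul_of_nonneg_right hk (by positivity)
      _ = ν * (k * l) := by ring
      _ ≤ ν * (552 * C * 2 ^ s * Lg ^ 3) := mul_le_mul_of_nonneg_left hmain hν.le
      _ = (ν * 2 ^ s * Lg ^ 3) * (552 * C) := by ring
  exact le_of_mul_le_mul_right h3 (by positivity)

theorem finalE3 (hlev : S_LEV) (C : ℝ) : ∀ᶠ m : ℕ in atTop, ∃ N E P, KLev.Has N E P ∧ N ≤ m ∧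
    ∀ x : ℝ, (m:ℝ) ≤ x → x ≤ 8 * m →
      C * m * Real.exp (Real.log x / (Real.log (Real.log x)) ^ 3) ≤ E := by
  obtain ⟨Dp, C₁, ν, hν, hC1, hD1, hD, hlev⟩ := hlev
  have hlog : Tendsto (fun m : ℕ => Nat.log 2 m) atTop atTop := by
    rw [tendsto_atTop]
    intro b
    filter_upwards [eventually_ge_atTop (2 ^ b)] with m hm
    exact Nat.le_log_of_pow_le (by norm_num) hm
  have hev := hlog.eventually ((select3 hν hC1 hD1 hD).and
    ((big3 (Real.log (10506 / 2500 * (|C| + 1)))).and (eventually_ge_atTop 10)))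
  filter_upwards [hev, eventually_ge_atTop 1] with m hm hm1
  obtain ⟨hsel, hbig, hl⟩ := hm
  set l := Nat.log 2 m with hldef
  have hlm : 2 ^ l ≤ m := Nat.pow_log_le_self 2 (by omega)
  have hlm2 : m < 2 ^ (l + 1) := Nat.lt_pow_succ_log_self (by norm_num) m
  obtain ⟨s, hs1, hs2⟩ := hsel
  have hl0 : (10:ℝ) ≤ l := by exact_mod_cast (by omega : 10 ≤ l)
  have hL : 0 < Real.log l := Real.log_pos (by linarith)
  obtain ⟨N, E, P, h2, h3, h4⟩ := (hlev s).fill (Real.exp_nonneg _) 0 m (by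
    refine le_trans (Nat.pow_le_pow_right (by norm_num) (le_trans (le_of_eq ?_) hs1)) hlm
    ring)
  refine ⟨N, E, P, h2, h3, ?_⟩
  intro x hx1 hx2
  have hx3 := log_bounds3 hlm hlm2 (by omega) hx1 hx2
  set y : ℝ := l / (Real.log l) ^ 3 with hy
  have hy0 : 0 ≤ y := by positivity
  have hm0 : (0:ℝ) ≤ m := Nat.cast_nonneg _
  have h6 : Real.exp (9 * y) ≤ Real.exp (ν * 2 ^ s) ^ (0 + 1) := by
    rw [zero_add, pow_one]
    exact Real.exp_le_exp.mpr hs2
  have h7 : |C| + 1 ≤ 2500 / 10506 * Real.exp y := by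
    have e1 : (0:ℝ) < 10506 / 2500 * (|C| + 1) := by positivity
    have e2 := Real.exp_le_exp.mpr hbig
    rw [Real.exp_log e1] at e2
    linarith
  calc C * m * Real.exp (Real.log x / (Real.log (Real.log x)) ^ 3)
      ≤ (|C| + 1) * m * Real.exp (8 * y) := by
        apply mul_le_mul _ (Real.exp_le_exp.mpr hx3) (Real.exp_nonneg _) (by positivity)
        exact mul_le_mul_of_nonneg_right (by linarith [le_abs_self C]) hm0
    _ ≤ (2500 / 10506 * Real.exp y) * m * Real.exp (8 * y) := by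
        apply mul_le_mul_of_nonneg_right _ (Real.exp_nonneg _)
        exact mul_le_mul_of_nonneg_right h7 hm0
    _ = 2500 / 10506 * (Real.exp y * Real.exp (8 * y)) * m := by ring
    _ = 2500 / 10506 * Real.exp (9 * y) * m := by
        rw [← Real.exp_add]
        congr 3
        ring
    _ ≤ 2500 / 10506 * Real.exp (ν * 2 ^ s) ^ (0 + 1) * m := by
        apply mul_le_mul_of_nonneg_right _ hm0
        exact mul_le_mul_of_nonneg_left h6 (by norm_num)
    _ ≤ E := h4

theorem t_FIN (hlev : S_LEV) : S_FIN := by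
  intro C
  filter_upwards [finalE3 hlev (8 * max C 0), eventually_ge_atTop 1] with m hm hm1
  obtain ⟨N, E, P, h1, h2, h3⟩ := hm
  refine ⟨N, E, P, h1, h2, ?_⟩
  intro x hx1 hx2
  have hm0 : (0:ℝ) < m := by exact_mod_cast hm1
  have hx : 0 < x := by linarith
  have h4 := h3 x hx1 hx2
  have e : x ^ (1 + 1 / (Real.log (Real.log x)) ^ 3) =
      x * Real.exp (Real.log x / (Real.log (Real.log x)) ^ 3) := by
    rw [Real.rpow_add hx, Real.rpow_one, Real.rpow_def_of_pos hx]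
    congr 2
    ring
  rw [e]
  have h5 : 0 ≤ max C 0 := le_max_right _ _
  calc C * (x * Real.exp (Real.log x / (Real.log (Real.log x)) ^ 3))
      ≤ max C 0 * (x * Real.exp (Real.log x / (Real.log (Real.log x)) ^ 3)) :=
        mul_le_mul_of_nonneg_right (le_max_left _ _) (by positivity)
    _ ≤ max C 0 * ((8 * m) * Real.exp (Real.log x / (Real.log (Real.log x)) ^ 3)) := by
        apply mul_le_mul_of_nonneg_left _ h5
        exact mul_le_mul_of_nonneg_right hx2 (Real.exp_nonneg _)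
    _ = 8 * max C 0 * m * Real.exp (Real.log x / (Real.log (Real.log x)) ^ 3) := by ring
    _ ≤ E := h4

end Pool.Agent.Run7.h216.KL3
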